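import Pool.Agent.W882.CM.Truth

set_option autoImplicit false

/-!
Some Turing degree `d ≤ 0^(ω)` is not the degree of any complete theory with a computable model
(so in particular not the degree of a countably categorical theory with a computable model).
-/

namespace Pool.Agent.Results.MP_f36693_lc.NoTheoryOfDegree

open Encodable Pool.Agent.Helper578.JD Oracle RE Defs Pool.Agent.W882 Pool.Agent.W882.CM
open Nat.Partrec (Code)

theorem red_zeroOmega : Red (jump ∅) zeroOmega := by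
  have h : ∀ a, Nat.pair 1 a ∈ zeroOmega ↔ a ∈ jump (∅ : Set ℕ) := by
    intro a
    show (Nat.pair 1 a).unpair.2 ∈ jump^[(Nat.pair 1 a).unpair.1] ∅ ↔ _
    rw [Nat.unpair_pair]
    rfl
  rw [Red_iff]
  exact ⟨(REIn.mem (f := fun n => Nat.pair 1 n) (by fun_prop)).of_eq fun n => h n,
    (REIn.not_mem (f := fun n => Nat.pair 1 n) (by fun_prop)).of_eq fun n => not_congr (h n)⟩

theorem deg_le {A B : Set ℕ} : deg A ≤ deg B ↔ Red A B :=
  toAntisymmetrization_le_toAntisymmetrization_iff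

/-- the sets which are many-one reducible to `zeroOmega` -/
def Y (e : ℕ) : Set ℕ := {m | ∃ v, v ∈ (Denumerable.ofNat Code e).eval m ∧ v ∈ zeroOmega}

theorem Y_re : REIn zeroOmega fun x : ℕ × ℕ => x.2 ∈ Y x.1 := by
  refine REIn.ex (S := fun (x : ℕ × ℕ) v => v ∈ (Denumerable.ofNat Code x.1).eval x.2 ∧
    v ∈ zeroOmega) ?_
  exact REIn.and (REIn.of_re eval_graph_re) (REIn.mem (by fun_prop))

theorem not_Y_re : REIn zeroOmega fun x : ℕ × ℕ => x.2 ∉ Y x.1 := by
  have h1 : REIn zeroOmega fun x : ℕ × ℕ => ¬ W x.1 x.2 := not_re red_zeroOmega W_re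
  have h2 : REIn zeroOmega fun x : ℕ × ℕ => ∃ v, v ∈ (Denumerable.ofNat Code x.1).eval x.2 ∧
      v ∉ zeroOmega := by
    refine REIn.ex (S := fun (x : ℕ × ℕ) v => v ∈ (Denumerable.ofNat Code x.1).eval x.2 ∧
      v ∉ zeroOmega) ?_
    exact REIn.and (REIn.of_re eval_graph_re) (REIn.not_mem (by fun_prop))
  refine (REIn.or h1 h2).of_eq fun x => ?_
  constructor
  · rintro (h | ⟨v, hv, hv'⟩) ⟨w, hw, hw'⟩
    · exact h (Part.dom_iff_mem.2 ⟨w, hw⟩)
    · rw [Part.mem_unique hv hw] at hv'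
      exact hv' hw'
  · intro h
    by_cases hW : W x.1 x.2
    · obtain ⟨v, hv⟩ := Part.dom_iff_mem.1 hW
      exact Or.inr ⟨v, hv, fun hv' => h ⟨v, hv, hv'⟩⟩
    · exact Or.inl hW

/-- There is a Turing degree `d ≤ 0^(ω)` such that no complete theory of degree `d`, in any
computable signature, has a computable model. -/
theorem result : ∃ d : TuringDegree, d ≤ deg zeroOmega ∧
    ∀ (L : Sig) (T : Set Fm), L.IsComputable → IsCompleteTheory L T → theoryDegree T = d →
      ¬ ∃ A : Str, A.IsComputable L ∧ A.IsModel T := by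
  obtain ⟨X, hX, h⟩ := diag red_zeroOmega Y_re not_Y_re
  refine ⟨deg X, deg_le.2 hX, ?_⟩
  rintro L T hL hT hd ⟨A, hA, hM⟩
  obtain ⟨f, hf, hf'⟩ := theory_reduces hL hT hA hM
  obtain ⟨c, hc⟩ := Code.exists_code.1 (Partrec.nat_iff.1 hf)
  have hY : Y (encode c) = codes T := by
    ext m
    rw [hf']
    show (∃ v, v ∈ (Denumerable.ofNat Code (encode c)).eval m ∧ v ∈ zeroOmega) ↔ _
    rw [Denumerable.ofNat_encode, hc]
    constructor
    · rintro ⟨v, hv, hv'⟩
      rw [Part.mem_some_iff.1 hv] at hv'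
      exact hv'
    · intro hm
      exact ⟨f m, Part.mem_some_iff.2 rfl, hm⟩
  refine h (encode c) ?_
  rw [hY]
  exact ⟨deg_le.1 (le_of_eq hd), deg_le.1 (ge_of_eq hd)⟩

end Pool.Agent.Results.MP_f36693_lc.NoTheoryOfDegree
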